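import Pool.Agent.helper16.LW.Spec

/-!
# Project lw: DVC, the divisor sum
-/

set_option autoImplicit false

open Complex MeasureTheory

namespace Pool.Agent.LW

open Pool.Agent.ZD Pool.Agent.helper84.DM Pool.Agent.helper78.ED Pool.Agent.DH

theorem DVC_kap_nonneg (x : ℝ) : 0 ≤ kap x := by
  unfold kap
  positivity

/-- the number of representations -/
theorem DVC_card (N M : ℕ) (D : ℝ) (hD : ∀ k : ℕ, 1 ≤ k → k ≤ 2 * N * M → d k ≤ D) (x k : ℤ)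
    (p₀ : ℕ × ℕ) (hp₀ : p₀ ∈ Finset.Ioc N (2 * N) ×ˢ Finset.Icc 1 M)
    (hk : x - (p₀.1 : ℤ) * p₀.2 = k) :
    (((Finset.Ioc N (2 * N) ×ˢ Finset.Icc 1 M).filter
      fun p : ℕ × ℕ => x - (p.1 : ℤ) * p.2 = k).card : ℝ) ≤ D := by
  rw [Finset.mem_product, Finset.mem_Ioc, Finset.mem_Icc] at hp₀
  obtain ⟨⟨h1, h2⟩, h3, h4⟩ := hp₀
  have ht1 : 1 ≤ p₀.1 * p₀.2 := Nat.mul_pos (by omega) (by omega)
  have ht2 : p₀.1 * p₀.2 ≤ 2 * N * M := Nat.mul_le_mul h2 h4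
  refine le_trans ?_ (hD (p₀.1 * p₀.2) ht1 ht2)
  unfold d
  rw [Nat.cast_le]
  refine Finset.card_le_card_of_injOn (fun p => p.1) ?_ ?_
  · intro p hp
    rw [Finset.mem_coe, Finset.mem_filter] at hp
    have h5 : (p.1 : ℤ) * p.2 = (p₀.1 : ℤ) * p₀.2 := by linarith [hp.2]
    have h6 : p.1 * p.2 = p₀.1 * p₀.2 := by exact_mod_cast h5
    rw [Finset.mem_coe, Nat.mem_divisors]
    exact ⟨⟨p.2, h6.symm⟩, by omega⟩
  · intro p hp p' hp' hpp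
    rw [Finset.mem_coe, Finset.mem_filter] at hp hp'
    have h5 : (p.1 : ℤ) * p.2 = (p'.1 : ℤ) * p'.2 := by linarith [hp.2, hp'.2]
    have h6 : p.1 * p.2 = p'.1 * p'.2 := by exact_mod_cast h5
    have h7 : p.1 = p'.1 := hpp
    have h8 : 0 < p.1 := by
      have h9 := (Finset.mem_Ioc.1 (Finset.mem_product.1 hp.1).1).1
      omega
    rw [← h7] at h6
    exact Prod.ext h7 (Nat.eq_of_mul_eq_mul_left h8 h6)

theorem DVC_one (hK : KSM_stmt) (N M : ℕ) (c D : ℝ) (hc : 0 < c) (hD0 : 0 ≤ D)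
    (hD : ∀ k : ℕ, 1 ≤ k → k ≤ 2 * N * M → d k ≤ D) (x : ℤ) :
    ∑ n' ∈ Finset.Ioc N (2 * N), ∑ m' ∈ Finset.Icc 1 M, kap (c * ((x : ℝ) - n' * m')) ≤
      D * (1 + 4 / c ^ 2) := by
  rw [← Finset.sum_product' (Finset.Ioc N (2 * N)) (Finset.Icc 1 M)
    (fun n' m' : ℕ => kap (c * ((x : ℝ) - n' * m')))]
  have h1 : ∑ p ∈ Finset.Ioc N (2 * N) ×ˢ Finset.Icc 1 M, kap (c * ((x : ℝ) - (p.1 : ℝ) * p.2)) =
      ∑ p ∈ Finset.Ioc N (2 * N) ×ˢ Finset.Icc 1 M,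
        (fun k : ℤ => kap (c * k)) (x - (p.1 : ℤ) * p.2) := by
    refine Finset.sum_congr rfl fun p _ => ?_
    show _ = kap (c * ((x - (p.1 : ℤ) * p.2 : ℤ) : ℝ))
    push_cast
    rfl
  rw [h1, Finset.sum_comp (fun k : ℤ => kap (c * k)) (fun p : ℕ × ℕ => x - (p.1 : ℤ) * p.2)]
  calc ∑ b ∈ (Finset.Ioc N (2 * N) ×ˢ Finset.Icc 1 M).image (fun p : ℕ × ℕ => x - (p.1 : ℤ) * p.2),
        ((Finset.Ioc N (2 * N) ×ˢ Finset.Icc 1 M).filter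
          fun p : ℕ × ℕ => x - (p.1 : ℤ) * p.2 = b).card • kap (c * b)
      ≤ ∑ b ∈ (Finset.Ioc N (2 * N) ×ˢ Finset.Icc 1 M).image
          (fun p : ℕ × ℕ => x - (p.1 : ℤ) * p.2), D * kap (c * b) := by
        refine Finset.sum_le_sum fun b hb => ?_
        rw [Finset.mem_image] at hb
        obtain ⟨p₀, hp₀, hb⟩ := hb
        rw [nsmul_eq_mul]
        exact mul_le_mul_of_nonneg_right (DVC_card N M D hD x b p₀ hp₀ hb) (DVC_kap_nonneg _)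
    _ = D * ∑ b ∈ (Finset.Ioc N (2 * N) ×ˢ Finset.Icc 1 M).image
          (fun p : ℕ × ℕ => x - (p.1 : ℤ) * p.2), kap (c * b) := (Finset.mul_sum _ _ _).symm
    _ ≤ D * (1 + 4 / c ^ 2) := mul_le_mul_of_nonneg_left (hK c _ hc).1 hD0

theorem DVC (hK : KSM_stmt) : DVC_stmt := by
  intro N M c D hc hD0 hD
  calc ∑ n ∈ Finset.Ioc N (2 * N), ∑ n' ∈ Finset.Ioc N (2 * N), ∑ m ∈ Finset.Icc 1 M,
        ∑ m' ∈ Finset.Icc 1 M, kap (c * ((n : ℝ) * m - n' * m'))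
      = ∑ n ∈ Finset.Ioc N (2 * N), ∑ m ∈ Finset.Icc 1 M, ∑ n' ∈ Finset.Ioc N (2 * N),
        ∑ m' ∈ Finset.Icc 1 M, kap (c * ((n : ℝ) * m - n' * m')) :=
        Finset.sum_congr rfl fun n _ => Finset.sum_comm
    _ ≤ ∑ n ∈ Finset.Ioc N (2 * N), ∑ m ∈ Finset.Icc 1 M, D * (1 + 4 / c ^ 2) := by
        refine Finset.sum_le_sum fun n _ => Finset.sum_le_sum fun m _ => ?_
        have h := DVC_one hK N M c D hc hD0 hD ((n : ℤ) * m)
        push_cast at h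
        exact h
    _ = N * M * D * (1 + 4 / c ^ 2) := by
        rw [Finset.sum_const, Finset.sum_const, Nat.card_Ioc, Nat.card_Icc, nsmul_eq_mul,
          nsmul_eq_mul, show 2 * N - N = N by omega, show M + 1 - 1 = M by omega]
        ring

end Pool.Agent.LW
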